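import Pool.Agent.H44.SO.Basic

/-!
# Several orbits of vertices: the view on the elements of one type (row VIE)
-/

set_option autoImplicit false
set_option linter.unusedVariables false

namespace Pool.Agent.H3.SO.VIE

open Pool.Agent.H68.BP Pool.Agent.H58.SF Pool.Agent.H53.GC Pool.Agent.H53.NR
open Pool.Agent.H44.SO Pool.Agent.H57.SO
open Pool.Agent.H57.EQ (Cx Tour)
open Pool.Agent.H44.EQ (ceq TypeClosed PolMap TInv BinPol ZA JSet sel kap)
open Pool.Agent.H44.EQD (SetD)
open Function

section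

variable {V S X : Type} {P : Pal S X} {c : V → V → S ⊕ X} {s : S}

theorem cs_self (hc : Col P c) (x : Vs c s) : cs P c s x x = P.fr s s := by
  rw [cs, cD_self hc, vt_of x.2]

theorem cs_of_ne (hc : Col P c) {x y : Vs c s} (h : x ≠ y) :
    c x.1 y.1 = Sum.inr (cs P c s x y) :=
  cD_of_ne hc fun h' => h (Subtype.ext h')

theorem cs_of_inr {x y : Vs c s} {t : X} (h : c x.1 y.1 = Sum.inr t) : cs P c s x y = t :=
  cD_of_inr h

end

section

variable {V S X : Type} [LinearOrder V] {P : Pal S X} {c : V → V → S ⊕ X} {σ : Sig}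
  {𝔸 : Str σ V} {M : ℕ}

/-- free elements of type `s` -/
theorem free_elts (hs : Stp P 𝔸 M c) (s : S) (n : ℕ) : ∃ f : Fin n → V, StrictMono f ∧
    (∀ i, c (f i) (f i) = Sum.inl s) ∧ ∀ i j, i ≠ j → c (f i) (f j) = Sum.inr (P.fr s s) := by
  obtain ⟨v0, hv0⟩ := hs.col.surS s
  obtain ⟨f, hf, hft, hfc⟩ := hs.uni n (fun _ => s) (fun _ _ => P.fr s s) (by
    intro m r hm hr hfr
    refine ⟨fun _ => v0, fun _ => hv0, fun i j hij => ?_⟩
    exact absurd rfl (hfr i j hij))
  refine ⟨f, hf, hft, fun i j hij => ?_⟩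
  rcases lt_or_gt_of_ne hij with h | h
  · exact hfc i j h
  · rw [hs.col.swap _ _ _ (hfc j i h), P.rv_fr]

theorem setD (hs : Stp P 𝔸 M c) (s : S) :
    SetD (str0 (Vs c s)) M (cs P c s) (P.fr s s) P.rv := by
  have hc := hs.col
  refine ⟨hs.finX, ?_, hs.three, fun x y => ?_, fun x => cs_self hc x, ?_, ?_⟩
  · obtain ⟨v0, hv0⟩ := hc.surS s
    exact ⟨⟨v0, hv0⟩⟩
  · by_cases h : x = y
    · subst h
      rw [cs_self hc, P.rv_fr]
    · exact cs_of_inr (hc.swap _ _ _ (cs_of_ne hc h))
  · intro n d hd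
    have hdiag : ∀ i, d i i = P.fr s s := by
      intro i
      obtain ⟨v, hv⟩ := hd 1 (fun _ => i) (le_trans (by norm_num) hs.three)
        (fun a b hab => absurd hab (by rw [Subsingleton.elim a b]; exact lt_irrefl _))
        (fun a b hab => absurd hab (by rw [Subsingleton.elim a b]; exact lt_irrefl _))
      have h2 := hv 0 0 le_rfl
      rw [cs_self hc] at h2
      exact h2.symm
    obtain ⟨f, hf, hft, hfc⟩ := hs.uni n (fun _ => s) d (by
      intro m r hm hr hfr
      obtain ⟨v, hv⟩ := hd m r hm hr hfr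
      refine ⟨fun i => (v i).1, fun i => (v i).2, fun i j hij => ?_⟩
      have h2 := hv i j hij.le
      rw [← h2]
      refine cs_of_ne hc fun he => hfr i j hij ?_
      rw [← h2, he, cs_self hc])
    refine ⟨fun i => ⟨f i, hft i⟩, fun i j hij => hf hij, fun i j hij => ?_⟩
    rcases hij.eq_or_lt with rfl | hlt
    · rw [cs_self hc, hdiag]
    · exact cs_of_inr (hfc i j hlt)
  · intro l x y _ _
    trivial

theorem polMap (hs : Stp P 𝔸 M c) {h : (Fin 6 → V) → (Fin 6 → V) → S ⊕ X}
    (hh : Can 𝔸 c (Fin 6) h) (s : S) :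
    PolMap (str0 (Vs c s)) M (cs P c s) (Fin 6) (hsv P c s h) := by
  classical
  have hc := hs.col
  constructor
  · intro v
    obtain ⟨ψ, -, hψ⟩ := hh.comb Unit (fun i _ => (v i).1)
    have h1 := hψ () ()
    have h2 : ∃ s', h (fun l => (v l).1) (fun l => (v l).1) = Sum.inl s' := by
      obtain ⟨s', hs'⟩ := (hc.eq_iff (ψ ()) (ψ ())).2 rfl
      exact ⟨s', by rw [← h1, hs']⟩
    exact if_pos h2
  · intro q v _
    match q, v with
    | none, v =>
      obtain ⟨ψ, -, hψ⟩ := hh.comb (Fin M) (fun i a => (v a i).1)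
      obtain ⟨f, hf, hft, hfc⟩ := free_elts hs s M
      have hM : Nonempty (Fin M) := ⟨⟨0, lt_of_lt_of_le (by norm_num) hs.three⟩⟩
      set r : Fin M → Fin M := fun a => invFun ψ (ψ a) with hr
      have hr1 : ∀ a, ψ (r a) = ψ a := fun a => invFun_eq ⟨a, rfl⟩
      have hr2 : ∀ a b, r a = r b ↔ ψ a = ψ b := by
        intro a b
        constructor
        · intro hab
          rw [← hr1 a, ← hr1 b, hab]
        · intro hab
          simp only [hr, hab]
      refine ⟨fun a => ⟨f (r a), hft _⟩, trivial, fun a b => ?_⟩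
      have h3 : (∃ s', h (fun l => (v a l).1) (fun l => (v b l).1) = Sum.inl s') ↔ ψ a = ψ b := by
        rw [← hc.eq_iff (ψ a) (ψ b), hψ a b]
      by_cases hab : ψ a = ψ b
      · have h4 : r a = r b := (hr2 a b).2 hab
        have h5 : hsv P c s h (v a) (v b) = none := if_pos (h3.2 hab)
        rw [h5]
        exact if_pos (Subtype.ext (congrArg f h4))
      · have h4 : r a ≠ r b := fun h' => hab ((hr2 a b).1 h')
        have h5 : hsv P c s h (v a) (v b) = some (P.fr s s) := if_neg fun h' => hab (h3.1 h')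
        rw [h5]
        have h6 : (⟨f (r a), hft (r a)⟩ : Vs c s) ≠ ⟨f (r b), hft (r b)⟩ := fun h' =>
          h4 (hf.injective (congrArg Subtype.val h'))
        have h7 : cs P c s ⟨f (r a), hft (r a)⟩ ⟨f (r b), hft (r b)⟩ = P.fr s s :=
          cs_of_inr (hfc _ _ h4)
        rw [← h7]
        exact if_neg h6
    | some l, v => exact l.elim0

theorem tInv (hs : Stp P 𝔸 M c) {h : (Fin 6 → V) → (Fin 6 → V) → S ⊕ X}
    (hh : Can 𝔸 c (Fin 6) h) (s : S) : TInv (cs P c s) (hsv P c s h) := by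
  classical
  have hc := hs.col
  intro v w v' w' hvw
  have hval : ∀ (v w : Fin 6 → Vs c s) (i : Fin 6 ⊕ Fin 6),
      Sum.elim (fun l => (v l).1) (fun l => (w l).1) i = (Sum.elim v w i).1 := by
    intro v w i
    cases i <;> rfl
  have hsame : Same c (Sum.elim (fun l => (v l).1) (fun l => (w l).1))
      (Sum.elim (fun l => (v' l).1) (fun l => (w' l).1)) := by
    have hlt : ∀ i j, (Sum.elim v w i).1 < (Sum.elim v w j).1 ↔
        (Sum.elim v' w' i).1 < (Sum.elim v' w' j).1 := fun i j => (hvw i j).1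
    have heq : ∀ i j, Sum.elim v w i = Sum.elim v w j ↔ Sum.elim v' w' i = Sum.elim v' w' j := by
      intro i j
      have h1 := (hvw i j).1
      have h2 := (hvw j i).1
      constructor
      · intro h3
        rw [h3] at h1 h2
        exact le_antisymm (not_lt.1 fun h4 => lt_irrefl _ (h2.2 h4))
          (not_lt.1 fun h4 => lt_irrefl _ (h1.2 h4))
      · intro h3
        rw [h3] at h1 h2
        exact le_antisymm (not_lt.1 fun h4 => lt_irrefl _ (h2.1 h4))
          (not_lt.1 fun h4 => lt_irrefl _ (h1.1 h4))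
    have hle : ∀ i j, Sum.elim v w i < Sum.elim v w j →
        c (Sum.elim v w i).1 (Sum.elim v w j).1 = c (Sum.elim v' w' i).1 (Sum.elim v' w' j).1 := by
      intro i j hij
      have h1 := (hvw i j).2 hij.le
      have h2 : Sum.elim v' w' i ≠ Sum.elim v' w' j := fun h3 => hij.ne ((heq i j).2 h3)
      rw [cs_of_ne hc hij.ne, cs_of_ne hc h2, h1]
    intro i j
    rw [hval, hval, hval, hval]
    refine ⟨hlt i j, ?_⟩
    rcases lt_trichotomy (Sum.elim v w i) (Sum.elim v w j) with h1 | h1 | h1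
    · exact hle i j h1
    · rw [← h1, ← (heq i j).1 h1, (Sum.elim v w i).2, (Sum.elim v' w' i).2]
    · exact Col.swap' hc (hle j i h1)
  unfold hsv
  rw [hh.tinv _ _ _ _ hsame]

end

theorem pf_VIE : T_VIE := by
  intro σ V S X _ P 𝔸 M c hs h hh s
  exact ⟨setD hs s, polMap hs hh s, tInv hs hh s⟩

end Pool.Agent.H3.SO.VIE
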