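import Pool.Agent.H58.SO.Basic
import Pool.Agent.H68.GC.OLF0

/-!
# Row DDT of the board vto_modules: cyclic functions for the typed injective part
-/

set_option autoImplicit false
set_option linter.unusedVariables false

namespace Pool.Agent.H3.SO.DDT

open Pool.Agent.H68.BP Pool.Agent.H58.SF Pool.Agent.H53.GC Pool.Agent.H53.NR
open Pool.Agent.H58.SO
open Function

variable {σ : Sig} {V X Θ : Type} [LinearOrder V] [Finite Θ] {M : ℕ}

/-- the relation of a symbol of `typS` -/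
def RS (B : Bs V X Θ M) (𝔸 : Str σ V) (D : Set Θ) (s : SyT σ M Θ) (y : Fin s.2.1 → V) : Prop :=
  Injective y ∧ (∀ j, B.vt (y j) = s.2.2.2.2 j ∧ s.2.2.2.2 j ∉ D) ∧
    ∃ x, relP 𝔸 M s.1 x ∧ (∀ a, B.vt (x a) = s.2.2.2.1 a) ∧
      ∀ a, s.2.2.2.1 a ∉ D → x a = y (s.2.2.1 a)

/-- preservation of the relations -/
theorem ddt_pres {B : Bs V X Θ M} {𝔸 : Str σ V} {D : Set Θ} {p : ℕ}
    {H : (ZMod p → X × Bool) → X × Bool}
    (hH : IsPoly (template (typS B 𝔸 D) M B.c) (template (typS B 𝔸 D) M B.c) H)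
    (s : SyT σ M Θ) (y : ZMod p → Fin s.2.1 → V) (hy : ∀ i, RS B 𝔸 D s (y i)) :
    ∃ y', RS B 𝔸 D s y' ∧ ∀ a b, a ≤ b →
      H (fun i => (B.c (y i a) (y i b), decide (a = b))) =
        (B.c (y' a) (y' b), decide (a = b)) := by
  classical
  obtain ⟨l, rfl⟩ := (Finite.equivFin (SyT σ M Θ)).symm.surjective s
  let ε := Finite.equivFin (Fin ((Finite.equivFin (SyT σ M Θ)).symm l).2.1)
  have hcard : ((Finite.equivFin (SyT σ M Θ)).symm l).2.1.val =
      Nat.card (Fin ((Finite.equivFin (SyT σ M Θ)).symm l).2.1) :=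
    (Nat.card_eq_fintype_card.trans (Fintype.card_fin _)).symm
  let cs : Fin ((Finite.equivFin (SyT σ M Θ)).symm l).2.1 ≃o
      Fin (Nat.card (Fin ((Finite.equivFin (SyT σ M Θ)).symm l).2.1)) := Fin.castOrderIso hcard
  let τ : Fin (Nat.card (Fin ((Finite.equivFin (SyT σ M Θ)).symm l).2.1)) →
      Fin (Nat.card (Fin ((Finite.equivFin (SyT σ M Θ)).symm l).2.1)) := fun a => cs (ε.symm a)
  have hτ : ∀ a, cs.symm (τ a) = ε.symm a := fun a => cs.symm_apply_apply _
  have hτi : ∀ a b, τ a = τ b ↔ a = b := fun a b =>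
    ⟨fun h => ε.symm.injective (cs.injective h), fun h => by rw [h]⟩
  have hp := (Pool.Agent.H68.GC.poly_strOn _ _ _).1 hH
    (⟨some l, τ⟩ : Sym (sigOf (SyT σ M Θ) (fun s => Fin s.2.1)) M)
    (fun i ab => (B.c (y i (cs.symm ab.1)) (y i (cs.symm ab.2)), decide (ab.1 = ab.2)))
    (fun i => ⟨fun a => y i (ε.symm a), by
      change RS B 𝔸 D ((Finite.equivFin (SyT σ M Θ)).symm l) (fun q => y i (ε.symm (ε q)))
      have h1 : (fun q => y i (ε.symm (ε q))) = y i := by
        funext q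
        rw [ε.symm_apply_apply]
      rw [h1]
      exact hy i,
      fun a b hab => by
        have h1 := (hτi a b).1 hab
        rw [h1],
      fun a b _ => by
        have h1 := hτ a
        have h2 := hτ b
        change (B.c (y i (cs.symm (τ a))) (y i (cs.symm (τ b))), decide (τ a = τ b)) =
          (B.c (y i (ε.symm a)) (y i (ε.symm b)), decide (τ a = τ b))
        rw [h1, h2]⟩)
  obtain ⟨x, hx1, -, hx2⟩ := hp
  refine ⟨fun j => x (ε j), hx1, fun a b hab => ?_⟩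
  have ha : τ (ε a) = cs a := by
    change cs (ε.symm (ε a)) = _
    rw [ε.symm_apply_apply]
  have hb : τ (ε b) = cs b := by
    change cs (ε.symm (ε b)) = _
    rw [ε.symm_apply_apply]
  have h1 := hx2 (ε a) (ε b) (by
    change τ (ε a) ≤ τ (ε b)
    rw [ha, hb]
    exact cs.monotone hab)
  change H (fun i => (B.c (y i (cs.symm (τ (ε a)))) (y i (cs.symm (τ (ε b)))),
    decide (τ (ε a) = τ (ε b)))) = (B.c (x (ε a)) (x (ε b)), decide (τ (ε a) = τ (ε b))) at h1
  have h2 : decide (τ (ε a) = τ (ε b)) = decide (a = b) := by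
    rw [decide_eq_decide, hτi]
    exact ε.injective.eq_iff
  rw [h2, ha, hb, cs.symm_apply_apply, cs.symm_apply_apply] at h1
  exact h1

theorem pf_DDT : T_DDT := by
  classical
  intro σ V X Θ _ _ M B 𝔸 D hBl p H hH hcyc
  refine ⟨fun t => ?_, fun s x hx hty heq rk hrk => ?_⟩
  · exact congrArg Prod.fst (hcyc (fun i => (t i, false)))
  by_cases hne : ∃ a, B.vt (x 0 a) ∉ D
  swap
  · have hall : ∀ a, B.vt (x 0 a) ∈ D := fun a => by
      by_contra h
      exact hne ⟨a, h⟩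
    exact ⟨x 0, hx 0, fun _ => rfl, fun a b ha => absurd (hall a) ha⟩
  obtain ⟨a₀, ha₀⟩ := hne
  -- the ranks
  let A : Finset (Fin (arP σ M s)) := Finset.univ.filter (fun a => B.vt (x 0 a) ∉ D)
  let R : Finset ℕ := A.image rk
  have hmem : ∀ a, B.vt (x 0 a) ∉ D → rk a ∈ R := fun a ha =>
    Finset.mem_image_of_mem _ (Finset.mem_filter.2 ⟨Finset.mem_univ a, ha⟩)
  let e : Fin R.card ≃o R := R.orderIsoOfFin rfl
  have hk : R.card < arP σ M s + 1 := by
    have h1 : R.card ≤ A.card := Finset.card_image_le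
    have h2 : A.card ≤ arP σ M s := by
      refine le_trans (Finset.card_filter_le _ _) ?_
      simp
    omega
  have hk0 : 0 < R.card := Finset.card_pos.2 ⟨_, hmem a₀ ha₀⟩
  let f : Fin (arP σ M s) → Fin R.card := fun a =>
    if h : B.vt (x 0 a) ∉ D then e.symm ⟨rk a, hmem a h⟩ else ⟨0, hk0⟩
  have hf : ∀ a (h : B.vt (x 0 a) ∉ D), f a = e.symm ⟨rk a, hmem a h⟩ := fun a h => dif_pos h
  have hrep : ∀ j : Fin R.card, ∃ a, B.vt (x 0 a) ∉ D ∧ rk a = (e j : ℕ) := by
    intro j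
    obtain ⟨a, ha, h⟩ := Finset.mem_image.1 (e j).2
    exact ⟨a, (Finset.mem_filter.1 ha).2, h⟩
  choose rep hrep1 hrep2 using hrep
  have hrf : ∀ a, B.vt (x 0 a) ∉ D → rk (rep (f a)) = rk a := by
    intro a ha
    rw [hrep2, hf a ha, e.apply_symm_apply]
  have hx0 : ∀ a, B.vt (x 0 a) ∉ D → x 0 (rep (f a)) = x 0 a := fun a ha =>
    (hrk _ _ (hrep1 _) ha).1 (hrf a ha)
  have hxi : ∀ i a, B.vt (x 0 a) ∉ D → x i (rep (f a)) = x i a := fun i a ha =>
    (heq i _ _ (hrep1 _) ha).2 (hx0 a ha)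
  -- the symbol
  obtain ⟨y', ⟨hy1, hy2, y, hy3, hy4, hy5⟩, hy6⟩ := ddt_pres hH
    (⟨s, ⟨R.card, hk⟩, f, fun a => B.vt (x 0 a), fun j => B.vt (x 0 (rep j))⟩ : SyT σ M Θ)
    (fun i j => x i (rep j)) (fun i => by
      refine ⟨fun j j' h => ?_, fun j => ⟨hty i _, hrep1 j⟩, x i, hx i, hty i, fun a ha => ?_⟩
      · have h1 : x 0 (rep j) = x 0 (rep j') := (heq i _ _ (hrep1 j) (hrep1 j')).1 h
        have h2 := (hrk _ _ (hrep1 j) (hrep1 j')).2 h1
        rw [hrep2, hrep2] at h2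
        exact e.injective (Subtype.ext h2)
      · exact (hxi i a ha).symm)
  refine ⟨y, hy3, hy4, fun a b ha hb => ⟨?_, fun hab => ?_⟩⟩
  · rw [hy5 a ha, hy5 b hb]
    change y' (f a) = y' (f b) ↔ _
    rw [hy1.eq_iff, ← hrk a b ha hb]
    constructor
    · intro h
      rw [← hrf a ha, ← hrf b hb, h]
    · intro h
      rw [hf a ha, hf b hb]
      simp only [h]
  · have hlt : f a < f b := by
      rw [hf a ha, hf b hb]
      exact e.symm.strictMono (Subtype.mk_lt_mk.2 hab)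
    have h1 := hy6 (f a) (f b) hlt.le
    have h2 : decide (f a = f b) = false := decide_eq_false hlt.ne
    rw [hy5 a ha, hy5 b hb]
    change B.c (y' (f a)) (y' (f b)) = _
    rw [h2] at h1
    have h3 := congrArg Prod.fst h1
    change (H (fun i => (B.c (x i (rep (f a))) (x i (rep (f b))), false))).1 =
      B.c (y' (f a)) (y' (f b)) at h3
    rw [← h3]
    refine congrArg (fun t => (H t).1) ?_
    funext i
    rw [hxi i a ha, hxi i b hb]

end Pool.Agent.H3.SO.DDT
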